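import Mathlib

/-!
# Chow groups of hypersurfaces: joins with two points
-/

namespace Pool.Agent.X264.HC

universe u v w

/-- Chow rings with rational coefficients of smooth projective connected complex varieties:
`A X` the Chow ring, `gr X i` the part of codimension `i`, `pull f = f^*`, `push f = f_*`,
products with their projections, `idProd X g = id_X × g`, and a point `pt` with the isomorphism
`sec X : X → X × pt`. -/
structure Chow where
  Var : Type u
  dim : Var → ℕ
  A : Var → Type v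
  [ring : ∀ X, CommRing (A X)]
  [alg : ∀ X, Algebra ℚ (A X)]
  gr : ∀ X, ℕ → Submodule ℚ (A X)
  Mor : Var → Var → Type w
  pull : ∀ {X Y}, Mor X Y → (A Y →ₐ[ℚ] A X)
  push : ∀ {X Y}, Mor X Y → (A X →ₗ[ℚ] A Y)
  prod : Var → Var → Var
  fst : ∀ X Y, Mor (prod X Y) X
  snd : ∀ X Y, Mor (prod X Y) Y
  idProd : ∀ (X) {D Y : Var}, Mor D Y → Mor (prod X D) (prod X Y)
  pt : Var
  sec : ∀ X, Mor X (prod X pt)

attribute [instance] Chow.ring Chow.alg

namespace Chow

variable (T : Chow.{u, v, w})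

/-- `A^i(X) = ℚ h^i`. -/
def IsCyclic (X : T.Var) (h : T.A X) (i : ℕ) : Prop :=
  ∀ a ∈ T.gr X i, ∃ c : ℚ, a = c • h ^ i

/-- The external product of `a` and `b`. -/
def ext {X Y : T.Var} (a : T.A X) (b : T.A Y) : T.A (T.prod X Y) :=
  T.pull (T.fst X Y) a * T.pull (T.snd X Y) b

/-- `A^i(X × Y)` is spanned by the external products `h^j × b`, `b ∈ A^{i-j}(Y)`, for all `Y`. -/
def HasKunneth (X : T.Var) (h : T.A X) (i : ℕ) : Prop :=
  ∀ Y, T.gr (T.prod X Y) i ≤
    Submodule.span ℚ {z | ∃ j k, j + k = i ∧ ∃ b ∈ T.gr Y k, z = T.ext (h ^ j) b}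

/-- The classes of codimension `i + 1` on `X × Y` which come from classes on `X × D`, with
`D → Y` and `dim D = dim Y - 1` (for instance, all classes supported on `X × D`, `D` a divisor). -/
def overDivisors (X Y : T.Var) (i : ℕ) : Submodule ℚ (T.A (T.prod X Y)) :=
  Submodule.span ℚ {z | ∃ (D : T.Var) (g : T.Mor D Y), T.dim D + 1 = T.dim Y ∧
    ∃ w ∈ T.gr (T.prod X D) i, z = T.push (T.idProd X g) w}

/-- The principle of Bloch and Srinivas: if `A^{i+1}(X) = ℚ h^{i+1}`, then every class of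
codimension `i + 1` on `X × Y` is the sum of a multiple of `h^{i+1} × [Y]` and of a class
supported on `X × D` for a divisor `D` of `Y`. -/
def Spreads : Prop :=
  ∀ (X : T.Var) (h : T.A X) (i : ℕ), T.IsCyclic X h (i + 1) → ∀ (Y : T.Var),
    ∀ z ∈ T.gr (T.prod X Y) (i + 1),
      ∃ c : ℚ, z - c • T.ext (h ^ (i + 1)) (1 : T.A Y) ∈ T.overDivisors X Y i

/-- `A^0(X) = ℚ`, and `A^i(X) = 0` for `i > dim X`. -/
def IsGraded : Prop :=
  ∀ X, (1 : T.A X) ∈ T.gr X 0 ∧ (∀ a ∈ T.gr X 0, ∃ c : ℚ, a = c • 1) ∧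
    ∀ i, T.dim X < i → T.gr X i = ⊥

/-- `f^*` preserves the codimension, `f_*` the dimension. -/
def IsFunctorial : Prop :=
  ∀ {X Y} (f : T.Mor X Y), (∀ i, ∀ a ∈ T.gr Y i, T.pull f a ∈ T.gr X i) ∧
    ∀ i m, i + T.dim Y = m + T.dim X → ∀ a ∈ T.gr X i, T.push f a ∈ T.gr Y m

/-- `(id × g)_*(a × b) = a × g_* b`. -/
def HasPushExt : Prop :=
  ∀ {X D Y : T.Var} (g : T.Mor D Y) (a : T.A X) (b : T.A D),
    T.push (T.idProd X g) (T.ext a b) = T.ext a (T.push g b)

/-- `X × pt = X`. -/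
def HasPoint : Prop :=
  T.dim T.pt = 0 ∧ ∀ {X : T.Var} (a : T.A X), T.pull (T.sec X) (T.ext a (1 : T.A T.pt)) = a

/-- The formal properties of Chow groups which are used. -/
structure IsChow : Prop where
  graded : T.IsGraded
  functorial : T.IsFunctorial
  push_ext : T.HasPushExt
  point : T.HasPoint
  spreads : T.Spreads

/-- A variety with a class of codimension one. -/
structure Pol where
  X : T.Var
  h : T.A X

/-- The statement of the conjecture for a hypersurface with hyperplane class `h`: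
`A^i(X) = ℚ h^i` for `i < dim X / 2`. -/
def Hartshorne (V : T.Pol) : Prop := ∀ i, 2 * i < T.dim V.X → T.IsCyclic V.X V.h i

/-- The data of Shioda and Katsura for nonsingular forms `f(x)`, `g(y)` of degree `d` and the
hypersurfaces `Z : f(x) = 0`, `U : f(x) + t^d = 0`, `V : g(y) = v^d`, `Y : f(x) + g(y) = 0`: the
blow-up `β : W → U × V` with centre `{t = 0} × {v = 0}`, which is the disjoint union of the
`Z × D_s`, `s ∈ S`, where the `D_s` are the connected components of `g(y) = 0`; its exceptional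
divisors `e_s : E_s → W` with `q_s : E_s → Z × D_s`; the map `π : W → Y` which is given by
`[v x : t y]`; and the action on `A(V)` of the group `G` of the automorphisms `v ↦ ζ v`. -/
structure Join (Z U V Y : T.Pol) where
  W : T.Var
  β : T.Mor W (T.prod U.X V.X)
  π : T.Mor W Y.X
  S : Type
  [fin : Fintype S]
  D : S → T.Var
  E : S → T.Var
  e : ∀ s, T.Mor (E s) W
  q : ∀ s, T.Mor (E s) (T.prod Z.X (D s))
  G : Type
  [finG : Fintype G]
  σ : G → (T.A V.X →ₗ[ℚ] T.A V.X)

attribute [instance] Join.fin Join.finG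

variable {T}

/-- `ψ : A(U × V) → A(Y)`, the map `π_* β^*`. -/
def Join.psi {Z U V Y : T.Pol} (L : T.Join Z U V Y) (x : T.A (T.prod U.X V.X)) : T.A Y.X :=
  T.push L.π (T.pull L.β x)

/-- The join of a cycle on `Z` and a cycle on `D_s` (more generally for cycles on `Z × D_s`), as a
cycle on `Y`. -/
def Join.join {Z U V Y : T.Pol} (L : T.Join Z U V Y) (s : L.S) (a : T.A (T.prod Z.X (L.D s))) :
    T.A Y.X :=
  T.push L.π (T.push (L.e s) (T.pull (L.q s) a))

/-- `π` is generically finite: `π_* π^* = N`. -/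
def Join.GenFinite {Z U V Y : T.Pol} (L : T.Join Z U V Y) : Prop :=
  ∃ N : ℚ, N ≠ 0 ∧ ∀ y, T.push L.π (T.pull L.π y) = N • y

/-- The blow-up formula: `A^{i+1}(W)` is spanned by `β^* A^{i+1}(U × V)` and the
`e_{s*} q_s^* A^i(Z × D_s)`. -/
def Join.Blowup {Z U V Y : T.Pol} (L : T.Join Z U V Y) : Prop :=
  ∀ i, ∀ w ∈ T.gr L.W (i + 1), ∃ x ∈ T.gr (T.prod U.X V.X) (i + 1),
    ∃ a : ∀ s, T.A (T.prod Z.X (L.D s)), (∀ s, a s ∈ T.gr (T.prod Z.X (L.D s)) i) ∧
      w = T.pull L.β x + ∑ s, T.push (L.e s) (T.pull (L.q s) (a s))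

/-- `V/G` is a projective space: sums over `G` are multiples of powers of `h`. -/
def Join.Average {Z U V Y : T.Pol} (L : T.Join Z U V Y) : Prop :=
  Nonempty L.G ∧ ∀ k, ∀ b ∈ T.gr V.X k, ∃ c : ℚ, ∑ g, L.σ g b = c • V.h ^ k

/-- `ψ(h^j × g b) = ψ(h^j × b)` for `g` in `G`. -/
def Join.Invariant {Z U V Y : T.Pol} (L : T.Join Z U V Y) : Prop :=
  ∀ g j b, L.psi (T.ext (U.h ^ j) (L.σ g b)) = L.psi (T.ext (U.h ^ j) b)

/-- `ψ(h^j × h^k)` is a multiple of `h^{j+k}`. -/
def Join.PsiPow {Z U V Y : T.Pol} (L : T.Join Z U V Y) : Prop :=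
  ∀ j k, ∃ c : ℚ, L.psi (T.ext (U.h ^ j) (V.h ^ k)) = c • Y.h ^ (j + k)

/-- The join of a linear section of `Z` and a cycle `b` on `D_s` is the intersection of `Y` with
the join of a linear space and `b`; so it is a multiple of a power of `h`. -/
def Join.JoinPow {Z U V Y : T.Pol} (L : T.Join Z U V Y) : Prop :=
  ∀ s j k, ∀ b ∈ T.gr (L.D s) k, ∃ c : ℚ,
    L.join s (T.ext (Z.h ^ j) b) = c • Y.h ^ (j + k + 1)

/-- The geometric properties of the data of Shioda and Katsura. -/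
structure Join.IsShiodaKatsura {Z U V Y : T.Pol} (L : T.Join Z U V Y) : Prop where
  dim_U : T.dim U.X = T.dim Z.X + 1
  dim_Y : T.dim Y.X = T.dim U.X + T.dim V.X
  genFinite : L.GenFinite
  blowup : L.Blowup
  average : L.Average
  invariant : L.Invariant
  psi_h : L.PsiPow
  join_h : L.JoinPow

/-- `Z`, `U`, `V`, `Y` are related as in `Join`. -/
def IsJoin (Z U V Y : T.Pol) : Prop := ∃ L : T.Join Z U V Y, L.IsShiodaKatsura

variable (T) in
/-- The cones over `Z : f(x) = 0` with two different vertices on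
`Y : f(x) + y_1^d + y_2^d = 0`: `E` and `E'` are the cones blown up in their vertices, `p`, `p'`
their maps to `Y`, and `q`, `q'` their maps to `Z`. -/
structure Cones (Z Y : T.Pol) where
  E : T.Var
  E' : T.Var
  p : T.Mor E Y.X
  q : T.Mor E Z.X
  p' : T.Mor E' Y.X
  q' : T.Mor E' Z.X

/-- The cone over a cycle on `Z`, with the first vertex. -/
def Cones.cone {Z Y : T.Pol} (L : T.Cones Z Y) (a : T.A Z.X) : T.A Y.X :=
  T.push L.p (T.pull L.q a)

/-- The geometric properties of the two cones. -/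
structure Cones.IsGood {Z Y : T.Pol} (L : T.Cones Z Y) : Prop where
  dim_Y : T.dim Y.X = T.dim Z.X + 2
  dim_E : T.dim L.E = T.dim Z.X + 1
  /-- cones over linear sections are linear sections -/
  cone_h : ∀ j, j ≤ T.dim Z.X → L.cone (Z.h ^ j) = Y.h ^ (j + 1)
  /-- cones with different vertices meet in the base -/
  cross : ∀ a, T.push L.q' (T.pull L.p' (L.cone a)) = a

/-- The relation between `Z : f(x) = 0`, `U : f(x) + t^d = 0` and
`Y : f(x) + y_1^d + y_2^d = 0`. -/
def Linked (Z U Y : T.Pol) : Prop :=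
  (∃ C : T.Pol, T.dim C.X = 1 ∧ IsJoin Z U C Y) ∧ ∃ L : T.Cones Z Y, L.IsGood

/-- `V m` is the hypersurface `f(x) + t_1^d + … + t_m^d = 0`, for a fixed `f`. -/
def IsTower (V : ℕ → T.Pol) : Prop := ∀ m, Linked (V m) (V (m + 1)) (V (m + 2))

/-- `Hyp d V`: `V` is a smooth hypersurface of degree `d`, with its hyperplane class. The property
used: for `d ≥ 2` and `Z : f(x) = 0` in this class of dimension at least `1`, the hypersurfaces
`U : f(x) + t^d = 0` and `Y : f(x) + y_1^d + y_2^d = 0` are in the class. -/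
def HasJoins (Hyp : ℕ → T.Pol → Prop) : Prop :=
  ∀ d, 2 ≤ d → ∀ Z, Hyp d Z → 1 ≤ T.dim Z.X → ∃ U Y, Hyp d U ∧ Hyp d Y ∧ Linked Z U Y

end Chow

end Pool.Agent.X264.HC
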