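import Pool.Agent.X264.HC.Defs

/-!
# Chow groups of hypersurfaces: joins with two points, proofs
-/

namespace Pool.Agent.X264.HC

universe u v w

namespace Chow

variable {T : Chow.{u, v, w}}

theorem ext_smul {X Y : T.Var} (a : T.A X) (b : T.A Y) (c : ℚ) :
    T.ext a (c • b) = c • T.ext a b := by
  unfold ext
  rw [map_smul, mul_smul_comm]

theorem smul_ext {X Y : T.Var} (a : T.A X) (b : T.A Y) (c : ℚ) :
    T.ext (c • a) b = c • T.ext a b := by
  unfold ext
  rw [map_smul, smul_mul_assoc]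

theorem isCyclic_zero (hT : T.IsChow) (X : T.Var) (h : T.A X) : T.IsCyclic X h 0 := by
  intro a ha
  obtain ⟨c, hc⟩ := (hT.graded X).2.1 a ha
  exact ⟨c, by rw [pow_zero]; exact hc⟩

/-- The universal form, one direction. -/
theorem hasKunneth_of_isCyclic (hT : T.IsChow) (X : T.Var) (h : T.A X) :
    ∀ i, (∀ i' ≤ i, T.IsCyclic X h i') → T.HasKunneth X h i := by
  intro i
  induction i with
  | zero =>
    intro _ Y z hz
    obtain ⟨c, rfl⟩ := (hT.graded _).2.1 z hz
    refine Submodule.smul_mem _ _ (Submodule.subset_span ⟨0, 0, rfl, 1, (hT.graded Y).1, ?_⟩)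
    unfold ext
    rw [pow_zero, map_one, map_one, one_mul]
  | succ i ih =>
    intro hc Y z hz
    obtain ⟨c, hz'⟩ := hT.spreads X h i (hc (i + 1) le_rfl) Y z hz
    have h1 : T.ext (h ^ (i + 1)) (1 : T.A Y) ∈ Submodule.span ℚ
        {z | ∃ j k, j + k = i + 1 ∧ ∃ b ∈ T.gr Y k, z = T.ext (h ^ j) b} :=
      Submodule.subset_span ⟨i + 1, 0, rfl, 1, (hT.graded Y).1, rfl⟩
    have h2 : T.overDivisors X Y i ≤ Submodule.span ℚ
        {z | ∃ j k, j + k = i + 1 ∧ ∃ b ∈ T.gr Y k, z = T.ext (h ^ j) b} := by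
      rw [overDivisors, Submodule.span_le]
      rintro _ ⟨D, g, hD, w, hw, rfl⟩
      have hw' := ih (fun i' hi' => hc i' (hi'.trans (Nat.le_succ i))) D hw
      have h3 : Submodule.span ℚ {z | ∃ j k, j + k = i ∧ ∃ b ∈ T.gr D k, z = T.ext (h ^ j) b} ≤
          (Submodule.span ℚ
            {z | ∃ j k, j + k = i + 1 ∧ ∃ b ∈ T.gr Y k, z = T.ext (h ^ j) b}).comap
            (T.push (T.idProd X g)) := by
        rw [Submodule.span_le]
        rintro _ ⟨j, k, hjk, b, hb, rfl⟩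
        refine Submodule.subset_span ⟨j, k + 1, by omega, T.push g b,
          (hT.functorial g).2 k (k + 1) (by omega) b hb, hT.push_ext g _ b⟩
      exact h3 hw'
    have := Submodule.add_mem _ (h2 hz') (Submodule.smul_mem _ c h1)
    rwa [sub_add_cancel] at this

/-- The universal form, the other direction. -/
theorem isCyclic_of_hasKunneth (hT : T.IsChow) (X : T.Var) (h : T.A X) (i : ℕ)
    (hK : T.HasKunneth X h i) : T.IsCyclic X h i := by
  intro a ha
  have h1 : T.ext a (1 : T.A T.pt) ∈ T.gr (T.prod X T.pt) i := by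
    unfold ext
    rw [map_one, mul_one]
    exact (hT.functorial _).1 i a ha
  have h2 := hK T.pt h1
  have h3 : Submodule.span ℚ {z | ∃ j k, j + k = i ∧ ∃ b ∈ T.gr T.pt k, z = T.ext (h ^ j) b} ≤
      (Submodule.span ℚ {h ^ i}).comap (T.pull (T.sec X)).toLinearMap := by
    rw [Submodule.span_le]
    rintro _ ⟨j, k, hjk, b, hb, rfl⟩
    change T.pull (T.sec X) (T.ext (h ^ j) b) ∈ Submodule.span ℚ {h ^ i}
    rcases Nat.eq_zero_or_pos k with rfl | hk
    · obtain ⟨c, rfl⟩ := (hT.graded _).2.1 b hb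
      rw [ext_smul, map_smul, hT.point.2]
      rw [add_zero] at hjk
      rw [hjk]
      exact Submodule.smul_mem _ _ (Submodule.mem_span_singleton_self _)
    · rw [(hT.graded T.pt).2.2 k (by rw [hT.point.1]; exact hk), Submodule.mem_bot] at hb
      rw [hb]
      unfold ext
      rw [map_zero, mul_zero, map_zero]
      exact Submodule.zero_mem _
  have h4 : T.pull (T.sec X) (T.ext a (1 : T.A T.pt)) ∈ Submodule.span ℚ {h ^ i} := h3 h2
  rw [hT.point.2, Submodule.mem_span_singleton] at h4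
  obtain ⟨c, hc⟩ := h4
  exact ⟨c, hc.symm⟩

variable {Z U V Y : T.Pol}

theorem Join.psi_smul (L : T.Join Z U V Y) (c : ℚ) (x : T.A (T.prod U.X V.X)) :
    L.psi (c • x) = c • L.psi x := by
  unfold Join.psi
  rw [map_smul, map_smul]

theorem cone_mem (hT : T.IsChow) {L : T.Cones Z Y} (hL : L.IsGood) {i : ℕ}
    {a : T.A Z.X} (ha : a ∈ T.gr Z.X i) : L.cone a ∈ T.gr Y.X (i + 1) := by
  have h1 := (hT.functorial L.q).1 i a ha
  exact (hT.functorial L.p).2 i (i + 1) (by rw [hL.dim_E, hL.dim_Y]; omega) _ h1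

/-- From dimension `n + 2` to dimension `n`. -/
theorem descend (hT : T.IsChow) {L : T.Cones Z Y} (hL : L.IsGood) {i : ℕ}
    (hi : i ≤ T.dim Z.X) (hY : T.IsCyclic Y.X Y.h (i + 1)) : T.IsCyclic Z.X Z.h i := by
  intro a ha
  obtain ⟨c, hc⟩ := hY _ (cone_mem hT hL ha)
  refine ⟨c, ?_⟩
  have h1 := hL.cross a
  rw [hc, ← hL.cone_h i hi, map_smul, map_smul, hL.cross] at h1
  exact h1.symm

/-- From `Z` and `U` to `Y`. -/
theorem ascend (hT : T.IsChow) {L : T.Join Z U V Y} (hL : L.IsShiodaKatsura) {i : ℕ}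
    (hU : ∀ i' ≤ i + 1, T.IsCyclic U.X U.h i') (hZ : ∀ i' ≤ i, T.IsCyclic Z.X Z.h i') :
    T.IsCyclic Y.X Y.h (i + 1) := by
  have hspan : ∀ x ∈ T.gr (T.prod U.X V.X) (i + 1),
      L.psi x ∈ Submodule.span ℚ {Y.h ^ (i + 1)} := by
    intro x hx
    have hx' := hasKunneth_of_isCyclic hT U.X U.h (i + 1) hU V.X hx
    let ψ : T.A (T.prod U.X V.X) →ₗ[ℚ] T.A Y.X := (T.push L.π).comp (T.pull L.β).toLinearMap
    have h3 : Submodule.span ℚ
        {z | ∃ j k, j + k = i + 1 ∧ ∃ b ∈ T.gr V.X k, z = T.ext (U.h ^ j) b} ≤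
        (Submodule.span ℚ {Y.h ^ (i + 1)}).comap ψ := by
      rw [Submodule.span_le]
      rintro _ ⟨j, k, hjk, b, hb, rfl⟩
      change L.psi (T.ext (U.h ^ j) b) ∈ Submodule.span ℚ {Y.h ^ (i + 1)}
      obtain ⟨c, hc⟩ := hL.average.2 k b hb
      obtain ⟨c', hc'⟩ := hL.psi_h j k
      have h4 : ∑ g : L.G, L.psi (T.ext (U.h ^ j) (L.σ g b)) =
          L.psi (T.ext (U.h ^ j) (c • V.h ^ k)) := by
        rw [← hc]
        unfold ext Join.psi
        rw [map_sum, Finset.mul_sum, map_sum, map_sum]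
      rw [Finset.sum_congr rfl (fun g _ => hL.invariant g j b), Finset.sum_const, ext_smul,
        Join.psi_smul, hc', hjk, Finset.card_univ] at h4
      have hG : (Fintype.card L.G : ℚ) ≠ 0 := by
        have := hL.average.1
        exact Nat.cast_ne_zero.2 Fintype.card_ne_zero
      have h5 : L.psi (T.ext (U.h ^ j) b) =
          (Fintype.card L.G : ℚ)⁻¹ • c • c' • Y.h ^ (i + 1) := by
        rw [← h4, ← Nat.cast_smul_eq_nsmul ℚ, smul_smul, inv_mul_cancel₀ hG, one_smul]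
      rw [h5]
      exact Submodule.smul_mem _ _ (Submodule.smul_mem _ _
        (Submodule.smul_mem _ _ (Submodule.mem_span_singleton_self _)))
    exact h3 hx'
  have hjoin : ∀ s, ∀ a ∈ T.gr (T.prod Z.X (L.D s)) i,
      L.join s a ∈ Submodule.span ℚ {Y.h ^ (i + 1)} := by
    intro s a ha
    have ha' := hasKunneth_of_isCyclic hT Z.X Z.h i hZ (L.D s) ha
    let ψ : T.A (T.prod Z.X (L.D s)) →ₗ[ℚ] T.A Y.X :=
      ((T.push L.π).comp (T.push (L.e s))).comp (T.pull (L.q s)).toLinearMap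
    have h3 : Submodule.span ℚ
        {z | ∃ j k, j + k = i ∧ ∃ b ∈ T.gr (L.D s) k, z = T.ext (Z.h ^ j) b} ≤
        (Submodule.span ℚ {Y.h ^ (i + 1)}).comap ψ := by
      rw [Submodule.span_le]
      rintro _ ⟨j, k, hjk, b, hb, rfl⟩
      change L.join s (T.ext (Z.h ^ j) b) ∈ Submodule.span ℚ {Y.h ^ (i + 1)}
      obtain ⟨c, hc⟩ := hL.join_h s j k b hb
      rw [hc, hjk]
      exact Submodule.smul_mem _ _ (Submodule.mem_span_singleton_self _)
    exact h3 ha'
  intro y hy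
  obtain ⟨N, hN, hpp⟩ := hL.genFinite
  obtain ⟨x, hx, a, ha, hw⟩ := hL.blowup i (T.pull L.π y) ((hT.functorial _).1 _ _ hy)
  have h1 : N • y = L.psi x + ∑ s, L.join s (a s) := by
    rw [← hpp y, hw, map_add, map_sum]
    rfl
  have h2 : N • y ∈ Submodule.span ℚ {Y.h ^ (i + 1)} := by
    rw [h1]
    exact Submodule.add_mem _ (hspan x hx) (Submodule.sum_mem _ fun s _ => hjoin s _ (ha s))
  have h3 : y ∈ Submodule.span ℚ {Y.h ^ (i + 1)} := by
    have := Submodule.smul_mem _ N⁻¹ h2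
    rwa [smul_smul, inv_mul_cancel₀ hN, one_smul] at this
  rw [Submodule.mem_span_singleton] at h3
  obtain ⟨c, hc⟩ := h3
  exact ⟨c, hc.symm⟩

theorem IsJoin.ascend (hT : T.IsChow) (h : IsJoin Z U V Y) {i : ℕ}
    (hU : ∀ i' ≤ i, T.IsCyclic U.X U.h i') (hZ : ∀ i', i' + 1 ≤ i → T.IsCyclic Z.X Z.h i') :
    T.IsCyclic Y.X Y.h i := by
  obtain ⟨L, hL⟩ := h
  rcases Nat.eq_zero_or_pos i with rfl | hi
  · exact isCyclic_zero hT _ _
  · obtain ⟨j, rfl⟩ : ∃ j, i = j + 1 := ⟨i - 1, by omega⟩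
    exact Chow.ascend hT hL hU fun i' hi' => hZ i' (by omega)

/-- If the conjecture holds for `Z : f = 0` and `U : f + t^d = 0`, then `A^i(Y) = ℚ h^i` for
`i < dim U / 2` and all `Y : f(x) + g(y) = 0`. -/
theorem IsJoin.isCyclic (hT : T.IsChow) (h : IsJoin Z U V Y) (hZ : T.Hartshorne Z)
    (hU : T.Hartshorne U) {i : ℕ} (hi : 2 * i < T.dim U.X) : T.IsCyclic Y.X Y.h i := by
  have h1 : T.dim U.X = T.dim Z.X + 1 := by
    obtain ⟨L, hL⟩ := h
    exact hL.dim_U
  exact h.ascend hT (fun i' hi' => hU i' (by omega)) (fun i' hi' => hZ i' (by omega))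

theorem Linked.dims (h : Linked Z U Y) :
    T.dim U.X = T.dim Z.X + 1 ∧ T.dim Y.X = T.dim Z.X + 2 := by
  obtain ⟨⟨C, hC, L, hL⟩, L', hL'⟩ := h
  exact ⟨hL.dim_U, hL'.dim_Y⟩

theorem Linked.descend (hT : T.IsChow) (h : Linked Z U Y) {i : ℕ}
    (hi : i ≤ T.dim Z.X) (hY : T.IsCyclic Y.X Y.h (i + 1)) : T.IsCyclic Z.X Z.h i := by
  obtain ⟨-, L, hL⟩ := h
  exact Chow.descend hT hL hi hY

theorem Linked.hartshorne_down (hT : T.IsChow) (h : Linked Z U Y) (hY : T.Hartshorne Y) :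
    T.Hartshorne Z := by
  intro i hi
  have := h.dims.2
  exact h.descend hT (by omega) (hY (i + 1) (by omega))

/-- All codimensions but the one with `2 i + 1 = dim Y`. -/
theorem Linked.hartshorne_up (hT : T.IsChow) (h : Linked Z U Y) (hZ : T.Hartshorne Z)
    (hU : T.Hartshorne U) {i : ℕ} (hi : 2 * i + 1 < T.dim Y.X) : T.IsCyclic Y.X Y.h i := by
  have h1 := h.dims
  obtain ⟨⟨C, hC, hL⟩, -⟩ := h
  exact hL.isCyclic hT hZ hU (by omega)

theorem hartshorne_iff_large (hT : T.IsChow) {Hyp : ℕ → T.Pol → Prop} (hH : HasJoins Hyp)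
    (φ : ℕ → ℕ) : (∀ d, 2 ≤ d → ∀ V, Hyp d V → 1 ≤ T.dim V.X → T.Hartshorne V) ↔
      ∀ d, 2 ≤ d → ∀ V, Hyp d V → 1 ≤ T.dim V.X → φ d ≤ T.dim V.X → T.Hartshorne V := by
  constructor
  · intro h d hd V hV h1 _
    exact h d hd V hV h1
  · intro h d hd
    have key : ∀ k V, Hyp d V → 1 ≤ T.dim V.X → φ d ≤ T.dim V.X + 2 * k → T.Hartshorne V := by
      intro k
      induction k with
      | zero => intro V hV h1 h2; exact h d hd V hV h1 h2
      | succ k ih =>
        intro V hV h1 h2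
        obtain ⟨U, Y, hU, hY, hL⟩ := hH d hd V hV h1
        have h3 := hL.dims.2
        exact hL.hartshorne_down hT (ih Y hY (by omega) (by omega))
    intro V hV h1
    exact key (φ d) V hV h1 (by omega)

theorem IsTower.dim {V : ℕ → T.Pol} (hV : IsTower V) (m : ℕ) :
    T.dim (V m).X = T.dim (V 0).X + m := by
  induction m with
  | zero => rfl
  | succ m ih => rw [(hV m).dims.1, ih]; omega

theorem IsTower.descend (hT : T.IsChow) {V : ℕ → T.Pol} (hV : IsTower V) {i m : ℕ}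
    (hi : i ≤ T.dim (V m).X) (k : ℕ) (hc : T.IsCyclic (V (m + 2 * k)).X (V (m + 2 * k)).h (i + k)) :
    T.IsCyclic (V m).X (V m).h i := by
  induction k with
  | zero => exact hc
  | succ k ih =>
    refine ih ?_
    have h1 := hV.dim m
    have h2 := hV.dim (m + 2 * k)
    exact (hV (m + 2 * k)).descend hT (by omega) hc

/-- The conjecture for a tower reduces to the critical dimensions `2 i + 1`. -/
theorem IsTower.hartshorne_iff (hT : T.IsChow) {V : ℕ → T.Pol} (hV : IsTower V) :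
    (∀ m, T.Hartshorne (V m)) ↔ T.Hartshorne (V 0) ∧ T.Hartshorne (V 1) ∧
      ∀ N, ∃ i, N ≤ i ∧ ∃ m, T.dim (V m).X = 2 * i + 1 ∧ T.IsCyclic (V m).X (V m).h i := by
  constructor
  · intro h
    refine ⟨h 0, h 1, fun N => ?_⟩
    have h0 := hV.dim
    have h1 := h0 (2 * N + T.dim (V 0).X + 1)
    refine ⟨N + T.dim (V 0).X, by omega, 2 * N + T.dim (V 0).X + 1, by omega, ?_⟩
    exact h _ _ (by omega)
  · rintro ⟨h0, h1, hinf⟩
    have hd := hV.dim
    have crit : ∀ i m, T.dim (V m).X = 2 * i + 1 → T.IsCyclic (V m).X (V m).h i := by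
      intro i m hm
      obtain ⟨i', hi', m', hm', hc⟩ := hinf i
      obtain ⟨k, rfl⟩ : ∃ k, i' = i + k := ⟨i' - i, by omega⟩
      have h2 := hd m
      have h3 := hd m'
      obtain rfl : m' = m + 2 * k := by omega
      exact hV.descend hT (by omega) k hc
    intro m
    induction m using Nat.strong_induction_on with
    | _ m ih =>
      rcases m with _ | _ | m
      · exact h0
      · exact h1
      · intro i hi
        rcases Nat.lt_or_ge (2 * i + 1) (T.dim (V (m + 1 + 1)).X) with h2 | h2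
        · exact (hV m).hartshorne_up hT (ih m (by omega)) (ih (m + 1) (by omega)) h2
        · exact crit i (m + 1 + 1) (by omega)

/-- In even dimension the conjecture for `Y` follows from the one for `Z` and `U`. -/
theorem Linked.hartshorne_even (hT : T.IsChow) (h : Linked Z U Y) (he : Even (T.dim Y.X))
    (hZ : T.Hartshorne Z) (hU : T.Hartshorne U) : T.Hartshorne Y := by
  intro i hi
  obtain ⟨k, hk⟩ := he
  exact h.hartshorne_up hT hZ hU (by omega)

theorem hartshorne_of_dim_le (hT : T.IsChow) {X : T.Pol} (h : T.dim X.X ≤ 2) :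
    T.Hartshorne X := by
  intro i hi
  obtain rfl : i = 0 := by omega
  exact isCyclic_zero hT _ _

/-- Towers which start with a curve. -/
theorem IsTower.hartshorne_iff_of_curve (hT : T.IsChow) {V : ℕ → T.Pol} (hV : IsTower V)
    (h0 : T.dim (V 0).X = 1) :
    (∀ m, T.Hartshorne (V m)) ↔ ∀ N, ∃ i, N ≤ i ∧ T.IsCyclic (V (2 * i)).X (V (2 * i)).h i := by
  have hd := hV.dim
  rw [hV.hartshorne_iff hT]
  constructor
  · rintro ⟨-, -, h⟩ N
    obtain ⟨i, hi, m, hm, hc⟩ := h N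
    have h1 := hd m
    obtain rfl : m = 2 * i := by omega
    exact ⟨i, hi, hc⟩
  · intro h
    have h1 := hd 1
    refine ⟨hartshorne_of_dim_le hT (by omega), hartshorne_of_dim_le hT (by omega), fun N => ?_⟩
    obtain ⟨i, hi, hc⟩ := h N
    have h2 := hd (2 * i)
    exact ⟨i, hi, 2 * i, by omega, hc⟩

end Chow

end Pool.Agent.X264.HC
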